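import Pool.Agent.Helper64.LN.Stmt
import Pool.Agent.Helper64.LN.AsmF
import Pool.Agent.Helper64.LN.All

set_option autoImplicit false

open Topology Set Metric UpperHalfPlane Pool.Agent.Helper64.LN.Stmt Pool.Agent.Helper78.BigMap

universe v

namespace Pool.Agent.Helper64.LN.Parked.OneNonplanarEnd

/-- Let `S` be the connected surface `X \ E` with oriented atlas `O`, where `E` is a closed
totally disconnected set of points of `X` which have disc neighbourhoods, and where `X` is not
planar near infinity.  Suppose that `X` minus the point `p` is uniformized by the upper half
plane, and that `s` is a sequence of simple closed geodesics bounding the members of a compact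
exhaustion of `X` (so that `X` has exactly one end), together with homeomorphisms of `S` with
disjoint compact supports, each moving the corresponding geodesic to a curve crossing it.
(Every surface with exactly one non-planar end, finitely or infinitely many planar ends, arises
in this way.)  Then the mapping class group of `S` has a finite quotient in which the image of
the pure mapping class group is not abelian. -/
theorem result {X : Type v} [TopologicalSpace X] [T2Space X] {E : Set X} [ConnectedSpace (Sf E)]
    (O : Set (OpenPartialHomeomorph (Sf E) ℂ)) (p : Sf E) (u : ℍ → X) (s : ℕ → Step E)
    (h : Surf {(p : X)} O p u s) (hE : NonPl E) : PureNonabelianQuotient O :=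
  Pool.Agent.Helper64.LN.surf_main Pool.Agent.Helper64.LN.glg
    (Pool.Agent.Helper85.LN.goalEX2 Pool.Agent.Helper97.LN.goalEX1)
    Pool.Agent.Helper39.LN.goalEX3 h hE

end Pool.Agent.Helper64.LN.Parked.OneNonplanarEnd
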